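import Pool.Agent.K9h30.CP.W
import Pool.Agent.K9h30.CP.IG
import Pool.Agent.K9h30.CP.Sec
import Pool.Agent.K9h30.CP.UB
import Pool.Agent.K9h30.CP.Blk
import Pool.Agent.K9h30.CP.Unb3
import Pool.Agent.K9h30.CP.Aut2
import Pool.Agent.K9h30.CP.Form3
import Pool.Agent.K9h30.CP.Dig
import Pool.Agent.K9h30.CP.RR
import Pool.Agent.K9h30.CP.Kap
import Pool.Agent.K9h30.CP.ClsP
import Pool.Agent.K9h30.CP.IniP
import Pool.Agent.K9h30.CP.Linc
import Pool.Agent.K9h30.CP.Linc2
import Pool.Agent.K9h30.CP.GB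
import Pool.Agent.K9h30.CP.GB2
import Pool.Agent.K9h30.CP.RR2
import Pool.Agent.K9h30.CP.Lin
import Pool.Agent.K9h30.CP.SecP
import Pool.Agent.K9h30.CP.Bin
import Pool.Agent.K9h30.CP.IniP2
import Pool.Agent.K9h30.CP.UBP
import Pool.Agent.K9h30.CP.BlkP2
import Pool.Agent.K9h30.CP.FormP3

set_option autoImplicit false

/-!
`V_(p,a,m)`, `p` odd.
-/

open Pool.Agent.Results.MP_9acee6_nt.Four (S V Automatic)
open Pool.Agent.K9h30.CP

namespace Pool.Agent.Results.MP_9acee6_nt.OddPrimes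

/-- `2` for `p = 3`, else `3` -/
def h (p : ℕ) : ℕ := if p = 3 then 2 else 3

/-- `W = (binom(2p-1, p-1) - 1) / p ^ h`, an integer by Wolstenholme's theorem -/
def W (p : ℕ) : ℕ := ((2 * p - 1).choose (p - 1) - 1) / p ^ h p

/-- The exceptional `m`: for `w = ν_p (m (m + 1))`, `a - w - h` is nonnegative and even and
`2 + W (m (m + 1) / p ^ w) u ^ 2 ≡ 0 mod p` for some `u`. -/
def Exceptional (p a m : ℕ) : Prop :=
  padicValNat p (m * (m + 1)) + h p ≤ a ∧ 2 ∣ a - (padicValNat p (m * (m + 1)) + h p) ∧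
    ∃ u : ℕ, p ∣ 2 + W p * (m * (m + 1) / p ^ padicValNat p (m * (m + 1))) * u ^ 2

theorem exc3 (a m : ℕ) (hm : 0 < m) : Exceptional 3 a m ↔ Exc a m := by
  have : Fact (Nat.Prime 3) := ⟨Nat.prime_three⟩
  obtain ⟨w, P, hPp, hmP⟩ := Nat.exists_eq_pow_mul_and_not_dvd
    (Nat.mul_pos hm (Nat.succ_pos m)).ne' 3 (by norm_num)
  have h1 : m * (m + 1) = 3 ^ w * P := hmP
  have hP0 : P ≠ 0 := by rintro rfl; simp at hPp
  have hw : padicValNat 3 (m * (m + 1)) = w := by
    rw [h1, padicValNat.mul (by positivity) hP0, padicValNat.prime_pow,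
      padicValNat.eq_zero_of_not_dvd hPp, add_zero]
  have hdiv : m * (m + 1) / 3 ^ w = P := by
    rw [h1]
    exact Nat.mul_div_cancel_left _ (by positivity)
  have hh : h 3 = 2 := rfl
  have hW : W 3 = 1 := by
    unfold W
    rw [hh]
    decide
  unfold Exceptional Exc
  rw [hw, hdiv, hh, hW]
  constructor
  · rintro ⟨a1, a2, u, hu⟩
    refine ⟨w, a1, by omega, ?_⟩
    have hP : P % 3 = 1 := by
      have hu3 : u % 3 = 0 ∨ u % 3 = 1 ∨ u % 3 = 2 := by omega
      have hP3 : P % 3 = 1 ∨ P % 3 = 2 := by omega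
      have h2 := Nat.mod_eq_zero_of_dvd hu
      rw [one_mul, Nat.add_mod, Nat.mul_mod, Nat.pow_mod] at h2
      rcases hP3 with h | h
      · exact h
      · exfalso
        rcases hu3 with h' | h' | h' <;> rw [h, h'] at h2 <;> revert h2 <;> decide
    rw [h1, pow_succ, Nat.mul_mod_mul_left, hP, mul_one]
  · rintro ⟨w', b1, b2, b3⟩
    have hdv : 3 ^ w' ∣ m * (m + 1) := by
      have h2 : 3 ^ w' ∣ 3 ^ (w' + 1) := pow_dvd_pow 3 (by omega)
      have h3 : 3 ^ w' ∣ m * (m + 1) % 3 ^ (w' + 1) := by rw [b3]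
      exact (Nat.dvd_mod_iff h2).mp h3
    have hnd : ¬ 3 ^ (w' + 1) ∣ m * (m + 1) := by
      intro h
      have := Nat.mod_eq_zero_of_dvd h
      rw [b3] at this
      exact (by positivity : 3 ^ w' ≠ 0) this
    have hne : m * (m + 1) ≠ 0 := (Nat.mul_pos hm (Nat.succ_pos m)).ne'
    have c1 := (padicValNat_dvd_iff_le hne).mp hdv
    have c2 : ¬ w' + 1 ≤ padicValNat 3 (m * (m + 1)) := fun h =>
      hnd ((padicValNat_dvd_iff_le hne).mpr h)
    rw [hw] at c1 c2
    have hww : w' = w := by omega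
    subst hww
    refine ⟨b1, by omega, 1, ?_⟩
    rw [h1, pow_succ, Nat.mul_mod_mul_left] at b3
    have hP : P % 3 = 1 := by
      have : 3 ^ w' * (P % 3) = 3 ^ w' * 1 := by rw [b3, mul_one]
      exact Nat.eq_of_mul_eq_mul_left (by positivity) this
    omega

theorem exc5 (p a m : ℕ) (hp5 : 5 ≤ p) : Exceptional p a m ↔ Excp2 p a m := by
  have hh : h p = 3 := by unfold h; rw [if_neg (by omega)]
  have hW : W p = Wp p := by unfold W Wp; rw [hh]
  unfold Exceptional Excp2
  rw [hh, hW]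
  constructor
  · rintro ⟨a1, a2, a3⟩
    exact ⟨a1, by omega, a3⟩
  · rintro ⟨a1, a2, a3⟩
    exact ⟨a1, by omega, a3⟩

theorem good (p a m : ℕ) (hp : p.Prime) (ha : 1 ≤ a) (hm : 0 < m) (F : ℕ → ℕ)
    (hF : ∀ s, a ≤ s → F (s + a) = F s)
    (hform : ∀ n, 1 ≤ n → V p a m n = (F (padicValNat p n) : ℕ∞)) :
    Automatic p (V p a m) ∧ ∃ B : ℕ, ∀ n, V p a m n ≤ B := by
  obtain ⟨hpos, hS0, hab⟩ := ab p a m hp ha hm
  have h0 : V p a m 0 = 0 := by
    unfold V
    rw [hS0]
    exact emultiplicity_of_one_right (by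
      intro h
      have := Int.isUnit_iff.mp h
      have := hp.one_lt
      omega)
  exact aut2 p a F (V p a m) hp ha h0 hF hform

theorem bad (p a m : ℕ) (hp : p.Prime) (ha : 1 ≤ a) (hm : 0 < m)
    (hu : ∀ d, ∃ n, (p : ℤ) ^ d ∣ S (p ^ a) m n) :
    ¬ Automatic p (V p a m) ∧ ¬ ∃ B : ℕ, ∀ n, V p a m n ≤ B := by
  obtain ⟨hpos, hS0, hab⟩ := ab p a m hp ha hm
  have hb : ¬ ∃ B : ℕ, ∀ n, V p a m n ≤ B := by
    rintro ⟨B, hB⟩
    obtain ⟨n, hn⟩ := hu (B + 1)
    have h1 : ((B + 1 : ℕ) : ℕ∞) ≤ V p a m n := le_emultiplicity_of_pow_dvd hn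
    have := Nat.cast_le.1 (h1.trans (hB n))
    omega
  exact ⟨fun h' => hb (hab h'), hb⟩

/-- **`V_(p,a,m)` for every odd prime `p`, every `a ≥ 1` and every `m ≥ 1`, where, if
`p ^ 4 ∣ binom(2p-1, p-1) - 1` (`p` is a Wolstenholme prime), `a ≤ ν_p (m (m + 1)) + 3` is
assumed.** If `m` is not exceptional, then `V_(p,a,m)` is `p`-automatic and bounded, and for
`n ≥ 1`, with `v = ν_p (m)`, `w = ν_p (m (m + 1))` and `s = ν_p (n)`, the valuation of
`S_(p^a,m) (n)` is `v + a - s` if `s < a`, and `min (v + a - r) (v + h + w + r)`,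
`r = s mod a`, if `s ≥ a`. If `m` is exceptional and `m ≢ -1 mod p`, then `V_(p,a,m)` is
unbounded and not `p`-automatic. -/
theorem result (p a m : ℕ) (hp : p.Prime) (hp2 : p ≠ 2)
    (hW : ¬ p ^ 4 ∣ (2 * p - 1).choose (p - 1) - 1 ∨ a ≤ padicValNat p (m * (m + 1)) + 3)
    (ha : 1 ≤ a) (hm : 0 < m) :
    (¬ Exceptional p a m → Automatic p (V p a m) ∧ (∃ B : ℕ, ∀ n, V p a m n ≤ B) ∧
      ∀ n, 1 ≤ n → V p a m n = ((if padicValNat p n < a then
        padicValNat p m + a - padicValNat p n else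
        min (padicValNat p m + a - padicValNat p n % a)
          (padicValNat p m + h p + padicValNat p (m * (m + 1)) + padicValNat p n % a) : ℕ) : ℕ∞)) ∧
    (Exceptional p a m → ¬ p ∣ m + 1 →
      ¬ Automatic p (V p a m) ∧ ¬ ∃ B : ℕ, ∀ n, V p a m n ≤ B) := by
  rcases eq_or_ne p 3 with rfl | h3
  · -- `p = 3`
    have hh : h 3 = 2 := rfl
    have hini := ini1 log_van clu
    have hblk : S_BLK := blk clu clg hini (inig w) sec tw (ub sec) (ub2 sec)
    refine ⟨fun hx => ?_, fun hx hm1 => ?_⟩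
    · rw [exc3 a m hm] at hx
      have hform : ∀ n, 1 ≤ n → V 3 a m n = (F3 a m (padicValNat 3 n) : ℕ∞) := fun n hn =>
        form3 dig funeq rr hblk a m ha hm hx n hn
      have hper : ∀ s, a ≤ s → F3 a m (s + a) = F3 a m s := by
        intro s hs
        unfold F3
        rw [if_neg (by omega), if_neg (by omega), Nat.add_mod_right]
      obtain ⟨h1, h2⟩ := good 3 a m hp ha hm (F3 a m) hper hform
      exact ⟨h1, h2, fun n hn => hform n hn⟩
    · have hx' := (exc3 a m hm).mp hx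
      have h3m : 3 ∣ m := by
        by_contra hc
        obtain ⟨w', b1, b2, b3⟩ := hx'
        have hcop : ¬ 3 ∣ m * (m + 1) := by
          intro h
          rcases (Nat.Prime.dvd_mul Nat.prime_three).mp h with h | h
          · exact hc h
          · exact hm1 h
        have hw0 : w' = 0 := by
          by_contra hw
          apply hcop
          have h2 : 3 ∣ 3 ^ (w' + 1) := dvd_pow_self 3 (by omega)
          have h4 : 3 ∣ m * (m + 1) % 3 ^ (w' + 1) := by rw [b3]; exact dvd_pow_self 3 hw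
          exact (Nat.dvd_mod_iff h2).mp h4
        subst hw0
        have hm3 : m % 3 = 1 := by omega
        rw [zero_add, pow_one, pow_zero, Nat.mul_mod, Nat.add_mod, hm3] at b3
        revert b3
        decide
      exact bad 3 a m hp ha hm (unb3 dig (eng clu clg) clu clg hini hblk g3 a m ha hm h3m hx')
  · have hp5 : 5 ≤ p := by
      have := hp.two_le
      by_contra hlt
      have : p = 4 := by omega
      subst this
      exact absurd hp (by decide)
    have hh : h p = 3 := by unfold h; rw [if_neg h3]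
    have hinip := inip kap
    refine ⟨fun hx => ?_, fun hx hm1 => ?_⟩
    · rw [exc5 p a m hp5] at hx
      have hblk : S_BLKp2 := blkp2 u0 clup0 clgp hinip (inip2 hinip twp gb2 rr2 u0) secp twp
        (ubp u0 hinip) (ub2p u0 hinip) binp
      have hform : ∀ n, 1 ≤ n → V p a m n = (Fp2 p a m (padicValNat p n) : ℕ∞) := fun n hn =>
        formp3 dig funeq u0 rr linc2 hblk p a m hp hp5 hW ha hm hx n hn
      have hper : ∀ s, a ≤ s → Fp2 p a m (s + a) = Fp2 p a m s := by
        intro s hs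
        unfold Fp2
        rw [if_neg (by omega), if_neg (by omega), Nat.add_mod_right]
      obtain ⟨h1, h2⟩ := good p a m hp ha hm (Fp2 p a m) hper hform
      refine ⟨h1, h2, fun n hn => ?_⟩
      rw [hh]
      exact hform n hn
    · have hx' := (exc5 p a m hp5).mp hx
      have hfp : Fact p.Prime := ⟨hp⟩
      have hvw : padicValNat p (m * (m + 1)) = padicValNat p m := by
        rw [padicValNat.mul (by omega) (by omega), padicValNat.eq_zero_of_not_dvd hm1, add_zero]
      obtain ⟨b1, b2, u, b3⟩ := hx'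
      have hW' : ¬ p ^ 4 ∣ (2 * p - 1).choose (p - 1) - 1 := by
        rintro ⟨c, hc⟩
        have h1 : Wp p = p * c := by
          unfold Wp
          rw [hc, pow_succ, mul_assoc]
          exact Nat.mul_div_cancel_left _ (Nat.pow_pos hp.pos)
        rw [h1] at b3
        have h2 : p ∣ p * c * (m * (m + 1) / p ^ padicValNat p (m * (m + 1))) * u ^ 2 :=
          ⟨c * (m * (m + 1) / p ^ padicValNat p (m * (m + 1))) * u ^ 2, by ring⟩
        have h4 := (Nat.dvd_add_left h2).mp b3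
        have := Nat.le_of_dvd (by norm_num) h4
        omega
      rw [hvw] at b1 b2 b3
      have hdiv : m * (m + 1) / p ^ padicValNat p m = m / p ^ padicValNat p m * (m + 1) := by
        obtain ⟨c, hc⟩ := (pow_padicValNat_dvd : p ^ padicValNat p m ∣ m)
        have hpos : 0 < p ^ padicValNat p m := Nat.pow_pos hp.pos
        generalize p ^ padicValNat p m = q at hc hpos
        subst hc
        rw [Nat.mul_div_cancel_left _ hpos, mul_assoc, Nat.mul_div_cancel_left _ hpos]
      rw [hdiv] at b3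
      have hx2 : Excp p a m := ⟨b1, b2, u, by
        have : 2 + Wp p * (m / p ^ padicValNat p m) * (m + 1) * u ^ 2 =
          2 + Wp p * (m / p ^ padicValNat p m * (m + 1)) * u ^ 2 := by ring
        rw [this]
        exact b3⟩
      exact bad p a m hp ha hm (unbp dig u0 rr clup0 clgp hinip linc (gb kap) rr2 (lin kap)
        p a m hp hp5 hW' ha hm hm1 hx2)

end Pool.Agent.Results.MP_9acee6_nt.OddPrimes
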